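import Pool.Agent.Y560.TF.Stm

/-!
Project TF, job FAM2 (helper914): configurations agreeing outside some classes.
-/

set_option autoImplicit false

namespace Pool.Agent.Y914.TF

open Set MeasureTheory
open Pool.Agent.H899R2.VP (St Adj PIso BF IsoOn idOn inv comp zipSet)
open Pool.Agent.H533R2.VO (RS lift put OS Ic RIso Dich VC BlkV S_FINAL)
open Pool.Agent.H566P (ar R2 v2 a0 a1 lt ac co mk S_ACC S_MSG)
open Pool.Agent.Y560.TG (acc msg lt_mk ac_mk co_mk R2_ext piso_iff riso_iff riso_isoOn meas_lt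
  meas_ac meas_co meas_into cont_into piso_lt piso_ac piso_co piso_eq ex lt_ex ac_ex co_ex_even
  co_ex_odd piso_ex orb orb_ex Nm Off Sm Thin Few bf_trans0 bf_symm0 iso_trans0 iso_symm0
  iso_refl0 S_EXT S_GL S_MAT S_BP mat pick Se)
open Pool.Agent.Y560.TF

/-- back-and-forth equivalence of the reducts -/
theorem bf_ex {P P' : ℕ → ℕ → Prop} {R R' : R2} {X Y : Set ℕ} {o : Ordinal.{0}}
    {p : Set (ℕ × ℕ)} (h : BF (lift (ex P R)) (lift (ex P' R')) X Y o p) :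
    BF (lift R) (lift R') X Y o p := by
  induction o using WellFoundedLT.induction generalizing p with
  | ind o ih =>
    rw [Pool.Agent.H899R2.VP.BF_iff] at h ⊢
    refine ⟨(piso_ex.1 h.1).1, fun o' ho' => ⟨fun x hx => ?_, fun y hy => ?_⟩⟩
    · obtain ⟨y, hy, hb⟩ := (h.2 o' ho').1 x hx
      exact ⟨y, hy, ih o' ho' hb⟩
    · obtain ⟨x, hx, hb⟩ := (h.2 o' ho').2 y hy
      exact ⟨x, hx, ih o' ho' hb⟩

theorem nlt {m n : ℕ} (h : m < n) : (m : Ordinal.{0}) < (n : Ordinal.{0}) := by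
  exact_mod_cast h

theorem o89 : (8 : Ordinal.{0}) < 9 := by
  exact_mod_cast nlt (show 8 < 9 by norm_num)
theorem o9t : (9 : Ordinal.{0}) < 10 := by
  exact_mod_cast nlt (show 9 < 10 by norm_num)
theorem ot : (10 : Ordinal.{0}) ≤ Ordinal.omega0 := by
  exact_mod_cast (Ordinal.natCast_lt_omega0 10).le

section

variable {R : R2} {y d : ℕ → ℕ} {V : ℕ → R2}

theorem lt_FX (S : Set ℕ) (a b : ℕ) : lt (FX R y d V S) a b ↔
    (if idx R y d a = idx R y d b then lt (pick R V S (idx R y d a)) a b else lt R a b) :=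
  lt_mk _ _ _ _ _

theorem ac_FX (S : Set ℕ) (n a b : ℕ) : ac (FX R y d V S) n a b ↔
    (if idx R y d a = idx R y d b then ac (pick R V S (idx R y d a)) n a b else ac R n a b) :=
  ac_mk _ _ _ _ _ _

theorem co_FX (S : Set ℕ) (n a : ℕ) : co (FX R y d V S) n a ↔
    co (pick R V S (idx R y d a)) n a :=
  co_mk _ _ _ _ _

theorem idx_iff (hdis : ∀ j k, j ≠ k → Disjoint (Ob R (y j) (d j)) (Ob R (y k) (d k))) (x k : ℕ) :
    idx R y d x = some k ↔ x ∈ Ob R (y k) (d k) := by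
  unfold idx
  split_ifs with h
  · constructor
    · intro h1
      have h2 : h.choose = k := Option.some.inj h1
      rw [← h2]
      exact h.choose_spec
    · intro h1
      congr 1
      by_contra h2
      exact Set.disjoint_left.1 (hdis _ _ h2) h.choose_spec h1
  · constructor
    · intro h1
      exact absurd h1 (by simp)
    · intro h1
      exact absurd ⟨k, h1⟩ h

theorem QQ_even (R : R2) (y d : ℕ → ℕ) (k m v : ℕ) :
    QQ R y d (2 * Nat.pair k m) v ↔ Q R (y k) m v := by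
  unfold QQ
  rw [if_pos (by omega), show 2 * Nat.pair k m / 2 = Nat.pair k m by omega, Nat.unpair_pair]

theorem QQ_odd (R : R2) (y d : ℕ → ℕ) (k v : ℕ) :
    QQ R y d (2 * k + 1) v ↔ v ∈ Ob R (y k) (d k) := by
  unfold QQ
  rw [if_neg (by omega), show (2 * k + 1) / 2 = k by omega]

end

/-- one inclusion -/
theorem fam2_core (hT : S_TRQ) {X X' : R2} {O : ℕ → Set ℕ} {y d : ℕ → ℕ} {P : ℕ → ℕ → Prop}
    {J : Set ℕ} (G : GEO X) (G' : GEO X') (hO : ∀ k, Ob X (y k) (d k) = O k)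
    (hO' : ∀ k, Ob X' (y k) (d k) = O k) (hout : ∀ j k, y j ∉ O k)
    (hP : ∀ a b, (∀ m, P m a ↔ P m b) → (∀ k, a ∈ O k ↔ b ∈ O k) ∧ ∀ k, sl X' (y k) a b)
    (hB : BF (lift (ex P X)) (lift (ex P X')) univ univ 10 (idOn {x | ∀ k ∈ J, x ∉ O k}))
    {u v t : ℕ} (hv : ∀ j ∈ J, v ∉ O j) (ht : t ∈ Ob X u v) : t ∈ Ob X' u v := by
  have pos : ∀ {o : Ordinal.{0}} {p : Set (ℕ × ℕ)},
      BF (lift (ex P X)) (lift (ex P X')) univ univ o p →
      ∀ {a b : ℕ}, (a, b) ∈ p → (∀ k, a ∈ O k ↔ b ∈ O k) ∧ ∀ k, sl X' (y k) a b := by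
    intro o p h a b hab
    exact hP a b fun m => (piso_ex.1 h.piso).2 m (a, b) hab
  have two : ∀ {o : Ordinal.{0}} {p : Set (ℕ × ℕ)},
      BF (lift (ex P X)) (lift (ex P X')) univ univ o p → 8 ≤ o →
      ∀ {a a' b b' c c' : ℕ}, (a, a') ∈ p → (b, b') ∈ p → (c, c') ∈ p →
      (c ∈ Ob X a b ↔ c' ∈ Ob X' a' b') := by
    intro o p h ho a a' b b' c c' h1 h2 h3
    exact hT.2.1 X X' p a a' b b' c c' (bf_ex (h.mono ho)) h1 h2 h3
  have one : ∀ {i t t' : ℕ}, u ∉ O i → t ∈ O i → t' ∈ O i → t' ∈ Ob X' u v →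
      t ∈ Ob X' u v := by
    intro i t t' hu ht ht' h
    have h1 : O i ⊆ Ob X' u (d i) := by
      have h2 := G'.tl (y i) (d i) u (by rw [hO' i]; exact hu)
      rwa [hO' i] at h2
    rw [← G'.eqv u v t' h, G'.eqv u (d i) t' (h1 ht')]
    exact h1 ht
  have hu' : ∃ (u' : ℕ) (p : Set (ℕ × ℕ)), BF (lift (ex P X)) (lift (ex P X')) univ univ 9 p ∧
      idOn {x | ∀ k ∈ J, x ∉ O k} ⊆ p ∧ (u, u') ∈ p ∧ Ob X' u v = Ob X' u' v := by
    by_cases huJ : ∀ j ∈ J, u ∉ O j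
    · exact ⟨u, _, hB.mono o9t.le, Subset.rfl, ⟨rfl, huJ⟩, rfl⟩
    · push Not at huJ
      obtain ⟨j, hj, huj⟩ := huJ
      obtain ⟨u', -, hu'⟩ := hB.forth o9t (mem_univ u)
      have h5 := pos hu' (Or.inl rfl)
      refine ⟨u', _, hu', subset_insert _ _, Or.inl rfl, ?_⟩
      exact G'.bc (y j) (d j) u u' v (by rw [hO']; exact hout j j) (by rw [hO']; exact huj)
        (by rw [hO']; exact (h5.1 j).1 huj) (h5.2 j) (by rw [hO']; exact hv j hj)
  obtain ⟨u', p, hp, hpi, hup, he⟩ := hu'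
  by_cases htJ : ∀ j ∈ J, t ∉ O j
  · rw [he]
    exact (two hp o89.le hup (hpi ⟨rfl, hv⟩) (hpi ⟨rfl, htJ⟩)).1 ht
  · push Not at htJ
    obtain ⟨i, hi, hti⟩ := htJ
    obtain ⟨t', -, ht'⟩ := hp.forth o89 (mem_univ t)
    have h1 : t' ∈ Ob X' u v := by
      rw [he]
      exact (two ht' le_rfl (Or.inr hup) (Or.inr (hpi ⟨rfl, hv⟩)) (Or.inl rfl)).1 ht
    have h2 : t' ∈ O i := ((pos ht' (Or.inl rfl)).1 i).1 hti
    have h3 : u ∉ O i := by
      intro hui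
      have h4 : Ob X u t ⊆ Ob X (y i) (d i) :=
        G.cl _ _ _ _ (by rw [hO]; exact hui) (by rw [hO]; exact hti)
      rw [G.eqv u v t ht, hO] at h4
      exact hv i hi (h4 (G.self u v))
    exact one h3 hti h2 h1

/-- FAM2 -/
theorem t_FAM2 (h1 : S_FAM1) (hG : S_GEO) (hT : S_TRQ) : S_FAM2 := by
  intro Γ _ g hg α R y d V hFm S S' J hJ u v hv
  obtain ⟨f1, f2, f3, f4, -, -, -⟩ := h1 Γ g hg α R y d V hFm
  have hdis := hFm.dis
  have hP : ∀ (S : Set ℕ) (a b : ℕ), (∀ m, QQ R y d m a ↔ QQ R y d m b) →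
      (∀ k, a ∈ Ob R (y k) (d k) ↔ b ∈ Ob R (y k) (d k)) ∧
      ∀ k, sl (FX R y d V S) (y k) a b := by
    intro S a b h
    refine ⟨fun k => ?_, fun k m => ?_⟩
    · have h2 := h (2 * k + 1)
      rwa [QQ_odd, QQ_odd] at h2
    · have h2 := h (2 * Nat.pair k m)
      rw [QQ_even, QQ_even] at h2
      rw [f1, f1]
      exact h2
  have hα : (10 : Ordinal.{0}) ≤ α := ot.trans hFm.om
  have hOb : Ob (FX R y d V S) u v = Ob (FX R y d V S') u v := by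
    ext t
    constructor
    · exact fun h => fam2_core hT (hG Γ g hg _ (f3 S)) (hG Γ g hg _ (f3 S')) (f4 S) (f4 S')
        hFm.out (hP S') ((f2 S S' J hJ).mono hα) hv h
    · exact fun h => fam2_core hT (hG Γ g hg _ (f3 S')) (hG Γ g hg _ (f3 S)) (f4 S') (f4 S)
        hFm.out (hP S) ((f2 S' S J fun k hk => (hJ k hk).symm).mono hα) hv h
  refine ⟨hOb, fun hd => ?_⟩
  rw [← hOb]
  -- agreement
  have agree : ∀ a b, (¬ ∃ j ∈ J, a ∈ Ob R (y j) (d j) ∧ b ∈ Ob R (y j) (d j)) →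
      idx R y d a = idx R y d b → pick R V S (idx R y d a) = pick R V S' (idx R y d a) := by
    intro a b hab he
    rcases ho : idx R y d a with _ | k
    · rfl
    · apply hJ
      intro hk
      apply hab
      refine ⟨k, hk, (idx_iff hdis a k).1 ho, (idx_iff hdis b k).1 ?_⟩
      rw [← he, ho]
  have alt : ∀ a b, (¬ ∃ j ∈ J, a ∈ Ob R (y j) (d j) ∧ b ∈ Ob R (y j) (d j)) →
      (lt (FX R y d V S) a b ↔ lt (FX R y d V S') a b) := by
    intro a b hab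
    rw [lt_FX, lt_FX]
    split_ifs with he
    · rw [agree a b hab he]
    · rfl
  have aac : ∀ n a b, (¬ ∃ j ∈ J, a ∈ Ob R (y j) (d j) ∧ b ∈ Ob R (y j) (d j)) →
      (ac (FX R y d V S) n a b ↔ ac (FX R y d V S') n a b) := by
    intro n a b hab
    rw [ac_FX, ac_FX]
    split_ifs with he
    · rw [agree a b hab he]
    · rfl
  have aco : ∀ n a, (∀ j ∈ J, a ∉ Ob R (y j) (d j)) →
      (co (FX R y d V S) n a ↔ co (FX R y d V S') n a) := by
    intro n a ha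
    rw [co_FX, co_FX, agree a a (fun ⟨j, hj, h, _⟩ => ha j hj h) rfl]
  have nl : ∀ {a b : ℕ}, (∀ j ∈ J, a ∉ Ob R (y j) (d j)) →
      ¬ ∃ j ∈ J, a ∈ Ob R (y j) (d j) ∧ b ∈ Ob R (y j) (d j) :=
    fun ha ⟨j, hj, h, _⟩ => ha j hj h
  obtain ⟨A, hA⟩ : ∃ A, A = Ob (FX R y d V S) u v := ⟨_, rfl⟩
  rw [← hA] at hd ⊢
  have hAJ : ∀ a ∈ A, ∀ j ∈ J, a ∉ Ob R (y j) (d j) := fun a ha j hj =>
    Set.disjoint_left.1 (hd j hj) ha
  refine ⟨idOn A, Set.empty_subset _, ?_, ?_, fun x hx => ⟨x, rfl, hx⟩, fun x hx => ⟨x, rfl, hx⟩⟩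
  · rintro ⟨a, b⟩ ⟨h, h'⟩
    simp only at h h'
    subst h
    exact ⟨h', h'⟩
  · rw [piso_iff]
    refine ⟨?_, ?_, ?_, ?_⟩
    · rintro ⟨a, a'⟩ ⟨ha, ha'⟩ ⟨b, b'⟩ ⟨hb, hb'⟩
      simp only at ha hb
      subst ha hb
      rfl
    · rintro ⟨a, a'⟩ ⟨ha, ha'⟩ ⟨b, b'⟩ ⟨hb, hb'⟩
      simp only at ha hb ha' hb'
      subst ha hb
      exact alt a b (nl (hAJ a ha'))
    · rintro n ⟨a, a'⟩ ⟨ha, ha'⟩ ⟨b, b'⟩ ⟨hb, hb'⟩
      simp only at ha hb ha' hb'
      subst ha hb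
      exact aac n a b (nl (hAJ a ha'))
    · rintro n ⟨a, a'⟩ ⟨ha, ha'⟩
      simp only at ha ha'
      subst ha
      exact aco n a (hAJ a ha')

end Pool.Agent.Y914.TF
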