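import Pool.Agent.Y560.TF.Stm

/-!
Project TF, job SEQ (helper914): a sequence of variations with new isomorphism types.
-/

set_option autoImplicit false

namespace Pool.Agent.Y914.TF

open Set MeasureTheory
open Pool.Agent.H899R2.VP (St Adj PIso BF IsoOn idOn inv comp zipSet)
open Pool.Agent.H533R2.VO (RS lift put OS Ic RIso Dich VC BlkV S_FINAL)
open Pool.Agent.H566P (ar R2 v2 a0 a1 lt ac co mk S_ACC S_MSG)
open Pool.Agent.Y560.TG (acc msg lt_mk ac_mk co_mk R2_ext piso_iff riso_iff riso_isoOn meas_lt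
  meas_ac meas_co meas_into cont_into piso_lt piso_ac piso_co piso_eq ex lt_ex ac_ex co_ex_even
  co_ex_odd piso_ex orb orb_ex Nm Off Sm Thin Few bf_trans0 bf_symm0 iso_trans0 iso_symm0
  iso_refl0 S_EXT S_GL S_MAT S_BP mat pick Se)
open Pool.Agent.Y560.TF

/-- recursion over all smaller numbers -/
noncomputable def seqRec {A : Type} (b : A) (c : (ℕ → A) → ℕ → A) : ℕ → A
  | s => c (fun s' => if _h : s' < s then seqRec b c s' else b) s
termination_by s => s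

theorem exists_seq {A : Type} (b : A) (P : (ℕ → A) → ℕ → A → Prop)
    (hP : ∀ f f' s a, (∀ s' < s, f s' = f' s') → P f s a → P f' s a)
    (hex : ∀ f s, ∃ a, P f s a) : ∃ f : ℕ → A, ∀ s, P f s (f s) := by
  choose c hc using hex
  refine ⟨seqRec b c, fun s => ?_⟩
  have h1 := hc (fun s' => if _h : s' < s then seqRec b c s' else b) s
  have h2 : seqRec b c s = c (fun s' => if _h : s' < s then seqRec b c s' else b) s := by
    rw [seqRec]
  rw [h2]
  refine hP _ _ s _ ?_ h1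
  intro s' hs'
  simp only [hs', dif_pos]

theorem pick_congr {R : R2} {V V' : ℕ → R2} {S : Set ℕ} {s : ℕ} (hS : ∀ s' ∈ S, s' < s)
    (h : ∀ s' < s, V s' = V' s') : pick R V S = pick R V' S := by
  funext o
  cases o with
  | none => rfl
  | some k =>
    simp only [pick]
    split_ifs with h1 h2
    · exact h _ (hS _ h1)
    · exact h _ (hS _ h2)
    · rfl

theorem FX_congr {R : R2} {y d : ℕ → ℕ} {V V' : ℕ → R2} {S : Set ℕ} {s : ℕ}
    (hS : ∀ s' ∈ S, s' < s) (h : ∀ s' < s, V s' = V' s') : FX R y d V S = FX R y d V' S := by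
  unfold FX
  rw [pick_congr hS h]

/-- the condition on the next variation -/
def Nx (α : Ordinal.{0}) (R : R2) (y d : ℕ → ℕ) (V : ℕ → R2) (s : ℕ) (W : R2) : Prop :=
  Off (Ob R (y (s / 2)) (d (s / 2))) R W ∧
  BF (lift (lb R (y (s / 2)))) (lift (ex (Q R (y (s / 2))) W))
    (Ob R (y (s / 2)) (d (s / 2))) (Ob R (y (s / 2)) (d (s / 2))) α ∅ ∧
  ∀ S : Set ℕ, (∀ s' ∈ S, s' < s) → ∀ u v,
    ¬ IsoOn (lift (FX R y d V S)) (lift W)
      (Ob (FX R y d V S) u v) (Ob R (y (s / 2)) (d (s / 2))) ∅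

/-- `W` is a variation of the class `O` of `z` over `y`, and there is an isomorphism from the class
`E` of `T` to `O` with the value `x` at `e`, where `x` is a good element of the class. -/
def Rl {Γ : Type} [Group Γ] (g : ℕ → Γ) (R : R2) (y z : ℕ) (T : R2) (E : Set ℕ) (e x : ℕ)
    (W : R2) : Prop :=
  TR g W ∧ Ob W y z = Ob R y z ∧ Q W y = Q R y ∧ Gd W y z x ∧
    IsoOn (lift T) (lift W) E (Ob R y z) {(e, x)}

theorem rl_iso (hD : S_GDR) {Γ : Type} [Group Γ] {g : ℕ → Γ} (hg : Function.Surjective g)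
    {R : R2} {y z : ℕ} {T : R2} {E : Set ℕ} {e x : ℕ} {W W' : R2} (h : Rl g R y z T E e x W)
    (h' : Rl g R y z T E e x W') :
    IsoOn (lift (lb W y)) (lift (lb W' y)) (Ob R y z) (Ob R y z) ∅ := by
  obtain ⟨h1, h2, h3, h4, h5⟩ := h
  obtain ⟨h1', h2', h3', h4', h5'⟩ := h'
  have h6 : IsoOn (lift W) (lift W') (Ob W y z) (Ob W' y z) {(x, x)} := by
    rw [h2, h2']
    refine (h5.symm.trans h5').mono ?_
    rintro ⟨a, b⟩ hab
    have hab' : (a, b) = (x, x) := hab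
    rw [hab']
    exact ⟨e, rfl, rfl⟩
  have h7 := hD Γ g hg W W' y z y z x x h1 h1' h6 h4 h4' (by rw [h3, h3']; exact fun _ => Iff.rfl)
  rw [h2, h2'] at h7
  exact h7.mono (empty_subset _)

open Classical in
theorem step (hF : S_FILL) (hG : S_GEO) (hO : S_OFF) (hT : S_TRQ) (hD : S_GDR) (Γ : Type)
    [Group Γ] (g : ℕ → Γ) (hg : Function.Surjective g) (α : Ordinal.{0}) (R : R2) (y d : ℕ → ℕ)
    (htr : TR g R) (hα : Ordinal.omega0 ≤ α) (hout : ∀ j k, y j ∉ Ob R (y k) (d k))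
    (hbig : ∀ k, ¬ Sm α (lb R (y k)) (Ob R (y k) (d k))) (V : ℕ → R2) (s : ℕ) :
    ∃ W, Nx α R y d V s W := by
  by_contra hcon
  obtain ⟨k, hk⟩ : ∃ k, k = s / 2 := ⟨_, rfl⟩
  have G := hG Γ g hg R htr
  have hall : ∀ W : R2, Off (Ob R (y k) (d k)) R W →
      BF (lift (lb R (y k))) (lift (ex (Q R (y k)) W)) (Ob R (y k) (d k)) (Ob R (y k) (d k)) α ∅ →
      ∃ S : Set ℕ, (∀ s' ∈ S, s' < s) ∧ ∃ u v,
        IsoOn (lift (FX R y d V S)) (lift W) (Ob (FX R y d V S) u v) (Ob R (y k) (d k)) ∅ := by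
    intro W h1 h2
    by_contra h3
    push Not at h3
    apply hcon
    refine ⟨W, ?_⟩
    unfold Nx
    rw [← hk]
    exact ⟨h1, h2, h3⟩
  have horb : ¬ orb R (y k) (d k) := fun h => hout k k ((G.out (y k) (d k)).1.2 h)
  have key : ∀ (N : R2) (Y : Set ℕ),
      BF (lift (lb R (y k))) (lift N) (Ob R (y k) (d k)) Y α ∅ →
      ∃ (S : Finset ℕ) (u v e x : ℕ) (W : R2),
        Rl g R (y k) (d k) (FX R y d V (S : Set ℕ)) (Ob (FX R y d V (S : Set ℕ)) u v) e x W ∧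
          IsoOn (lift N) (lift (lb W (y k))) Y (Ob R (y k) (d k)) ∅ := by
    intro N Y hNY
    obtain ⟨W, hW1, hW2, hW3, hW4, hW5⟩ :=
      hF R N (Ob R (y k) (d k)) Y (Q R (y k)) α (G.mod (y k) (d k)) hα hNY
    have hQ : Q W (y k) = Q R (y k) := by
      funext m x
      exact propext (hT.2.2.2.2.2.1 R W (idOn (Ob R (y k) (d k))ᶜ) (y k) (hW2.mono hα)
        ⟨rfl, hout k k⟩ m x)
    obtain ⟨o1, -, o3, -⟩ := hO Γ g hg R W (Ob R (y k) (d k)) htr
      (fun n x z h => G.inv n _ _ x z h) hW1 (hW5.mono hα)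
    have hOb : Ob W (y k) (d k) = Ob R (y k) (d k) := o3 (y k) (d k) horb rfl (d k) (G.self _ _)
    have hgood : ∃ x, Gd W (y k) (d k) x := by
      by_cases h : ∃ z ∈ Ob W (y k) (d k), Du W (y k) z
      · obtain ⟨z, h1, h2⟩ := h
        exact ⟨z, h1, Or.inl h2⟩
      · push Not at h
        refine ⟨d k, ?_, Or.inr h⟩
        rw [hOb]
        exact G.self _ _
    obtain ⟨x, hx⟩ := hgood
    obtain ⟨S, hS, u, v, q, -, hq2, hq3, hq4, hq5⟩ := hall W hW1 hW4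
    obtain ⟨e, he⟩ := hq5 x (by rw [← hOb]; exact hx.1)
    have hfin : S.Finite := (Set.finite_lt_nat s).subset fun s' hs' => hS s' hs'
    refine ⟨hfin.toFinset, u, v, e, x, W, ⟨o1, hOb, hQ, hx, ?_⟩, ?_⟩
    · rw [hfin.coe_toFinset]
      exact ⟨q, Set.singleton_subset_iff.2 he, hq2, hq3, hq4, hq5⟩
    · unfold lb
      rw [hQ]
      exact hW3
  obtain ⟨e, he⟩ := exists_surjective_nat (Finset ℕ × ℕ × ℕ × ℕ × ℕ)
  apply hbig k
  refine ⟨fun n => (if h : ∃ W, Rl g R (y k) (d k) (FX R y d V ((e n).1 : Set ℕ))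
      (Ob (FX R y d V ((e n).1 : Set ℕ)) (e n).2.1 (e n).2.2.1) (e n).2.2.2.1 (e n).2.2.2.2 W
    then lb h.choose (y k) else R, Ob R (y k) (d k)), fun N Y hNY => ?_⟩
  obtain ⟨S, u, v, a, x, W, h1, h2⟩ := key N Y hNY
  obtain ⟨n, hn⟩ := he (S, u, v, a, x)
  refine ⟨n, ?_⟩
  have hex : ∃ W, Rl g R (y k) (d k) (FX R y d V ((e n).1 : Set ℕ))
      (Ob (FX R y d V ((e n).1 : Set ℕ)) (e n).2.1 (e n).2.2.1) (e n).2.2.2.1
      (e n).2.2.2.2 W := by
    rw [hn]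
    exact ⟨W, h1⟩
  simp only [dif_pos hex]
  have h3 := hex.choose_spec
  have h1' : Rl g R (y k) (d k) (FX R y d V ((e n).1 : Set ℕ))
      (Ob (FX R y d V ((e n).1 : Set ℕ)) (e n).2.1 (e n).2.2.1) (e n).2.2.2.1
      (e n).2.2.2.2 W := by
    rw [hn]
    exact h1
  exact iso_trans0 (rl_iso hD hg h3 h1') (iso_symm0 h2)

/-- SEQ -/
theorem t_SEQ (hF : S_FILL) (hG : S_GEO) (hO : S_OFF) (hT : S_TRQ) (hD : S_GDR) : S_SEQ := by
  intro Γ _ g hg α R y d htr hα hout hdis hbig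
  obtain ⟨V, hV⟩ := exists_seq R (Nx α R y d) (by
    rintro f f' s W hff ⟨h1, h2, h3⟩
    refine ⟨h1, h2, fun S hS u v => ?_⟩
    rw [← FX_congr hS hff]
    exact h3 S hS u v) (step hF hG hO hT hD Γ g hg α R y d htr hα hout hbig)
  refine ⟨V, ⟨htr, hα, hout, hdis, fun s => (hV s).1, fun s => (hV s).2.1⟩, ?_⟩
  intro s S hS u v
  exact (hV s).2.2 S hS u v

end Pool.Agent.Y914.TF
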